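import Mathlib
import Pool.Agent.H767R2.DefsTC
import Pool.Agent.H767R2.FpLower

set_option autoImplicit false

/-!
# The true complexity of a polynomial progression can exceed the degree of its algebraic relations

For the progression `x, x + y, x + 2y, x + 3y, x + 4y, x + y³ - 2y², x + y³ + 2y, x + y³ + 2y²` and the term
`x + 4y`, the least bound for the degrees of the algebraic relations is `3`, but the true complexity is at
least `4`.
-/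

namespace Pool.Agent.Results.MP_31941f_co.TrueComplexityCounterexample

open Pool.Agent.H767R2 Polynomial

/-- The polynomials `y, 2y, 3y, 4y, y³ - 2y², y³ + 2y, y³ + 2y²`. -/
noncomputable def P7 : Fin 7 → ℤ[X] :=
  ![X, 2 * X, 3 * X, 4 * X, X ^ 3 - 2 * X ^ 2, X ^ 3 + 2 * X, X ^ 3 + 2 * X ^ 2]

theorem rel_eval {m : ℕ} (P : Fin m → ℤ[X]) (R : Fin (m + 1) → ℤ[X]) (h : IsAlgRel P R) (x y : ℤ) :
    ∑ j, (R j).eval (x + (prog P j).eval y) = 0 := by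
  set φ : ℤ[X][X] →+* ℤ := (evalRingHom y).comp (evalRingHom (C x)) with hφ
  have h1 : ∀ (z : ℤ[X][X]) (q : ℤ[X]), φ (aeval z q) = q.eval (φ z) := by
    intro z q
    have h2 := Polynomial.aeval_algHom_apply φ.toIntAlgHom z q
    rw [← Polynomial.coe_aeval_eq_eval]
    exact h2.symm
  have h3 := congrArg φ h
  rw [map_sum, map_zero] at h3
  rw [← h3]
  refine Finset.sum_congr rfl fun j _ => ?_
  rw [h1]
  congr 1
  simp [hφ]

theorem algBound_three (i : Fin 7) : AlgBound P7 i.succ 3 := by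
  intro R hR
  obtain ⟨D, hD⟩ : ∃ D, ∀ j : Fin 7, (R j.succ).natDegree ≤ D :=
    ⟨Finset.univ.sup fun j : Fin 7 => (R j.succ).natDegree,
      fun j => Finset.le_sup (f := fun j : Fin 7 => (R j.succ).natDegree) (Finset.mem_univ j)⟩
  have h1 := rel_deg D (fun j => (R j.succ).map (Int.castRingHom ℚ)) (-(R 0).map (Int.castRingHom ℚ))
    (fun j => (Polynomial.natDegree_map_le).trans (hD j)) (fun x y => ?_) i
  · rwa [Polynomial.natDegree_map_eq_of_injective (Int.cast_injective)] at h1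
  · have h2 := rel_eval P7 R hR x y
    rw [Fin.sum_univ_succ] at h2
    have h3 : (prog P7 0).eval (y : ℤ) = 0 := by simp [prog]
    rw [h3, add_zero] at h2
    have h4 : ∀ j : Fin 7, ((R j.succ).map (Int.castRingHom ℚ)).eval ((x : ℚ) + pe (y : ℚ) j)
        = (((R j.succ).eval ((x : ℤ) + (prog P7 j.succ).eval (y : ℤ)) : ℤ) : ℚ) := by
      intro j
      have h5 : (x : ℚ) + pe (y : ℚ) j = (((x : ℤ) + (prog P7 j.succ).eval (y : ℤ) : ℤ) : ℚ) := by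
        rw [prog, Fin.cons_succ]
        have h6 : (P7 j).eval (y : ℤ) = pe (y : ℤ) j := pf_eval j y
        rw [h6]
        fin_cases j <;> simp [pe]
      rw [h5, Polynomial.eval_intCast_map]
      simp
    simp only [h4]
    rw [← Int.cast_sum]
    have h7 : (-(R 0).map (Int.castRingHom ℚ)).eval (x : ℚ) = ((-(R 0).eval (x : ℤ) : ℤ) : ℚ) := by
      have h8 : (x : ℚ) = ((x : ℤ) : ℚ) := by push_cast; rfl
      rw [Polynomial.eval_neg, h8, Polynomial.eval_intCast_map]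
      simp
    rw [h7]
    congr 1
    linarith

/-- the relation `z³, -4z³, 6z³, -4z³, z³, 0, 0, 0` -/
noncomputable def R8 : Fin 8 → ℤ[X] := ![X ^ 3, -4 * X ^ 3, 6 * X ^ 3, -4 * X ^ 3, X ^ 3, 0, 0, 0]

theorem isAlgRel_R8 : IsAlgRel P7 R8 := by
  rw [IsAlgRel, Fin.sum_univ_eight]
  simp only [R8, prog, P7, Matrix.cons_val]
  have e0 : (Fin.cons 0 ![X, 2 * X, 3 * X, 4 * X, X ^ 3 - 2 * X ^ 2, X ^ 3 + 2 * X, X ^ 3 + 2 * X ^ 2] :
      Fin 8 → ℤ[X]) 0 = 0 := rfl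
  have e1 : (Fin.cons 0 ![X, 2 * X, 3 * X, 4 * X, X ^ 3 - 2 * X ^ 2, X ^ 3 + 2 * X, X ^ 3 + 2 * X ^ 2] :
      Fin 8 → ℤ[X]) 1 = X := rfl
  have e2 : (Fin.cons 0 ![X, 2 * X, 3 * X, 4 * X, X ^ 3 - 2 * X ^ 2, X ^ 3 + 2 * X, X ^ 3 + 2 * X ^ 2] :
      Fin 8 → ℤ[X]) 2 = 2 * X := rfl
  have e3 : (Fin.cons 0 ![X, 2 * X, 3 * X, 4 * X, X ^ 3 - 2 * X ^ 2, X ^ 3 + 2 * X, X ^ 3 + 2 * X ^ 2] :
      Fin 8 → ℤ[X]) 3 = 3 * X := rfl
  have e4 : (Fin.cons 0 ![X, 2 * X, 3 * X, 4 * X, X ^ 3 - 2 * X ^ 2, X ^ 3 + 2 * X, X ^ 3 + 2 * X ^ 2] :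
      Fin 8 → ℤ[X]) 4 = 4 * X := rfl
  rw [e0, e1, e2, e3, e4]
  simp only [map_mul, map_pow, map_neg, map_ofNat, map_zero, aeval_X, add_zero]
  ring

theorem three_le {s : ℕ} (hs : AlgBound P7 4 s) : 3 ≤ s := by
  have h1 := hs R8 isAlgRel_R8
  have h2 : R8 4 = X ^ 3 := rfl
  rw [h2, Polynomial.natDegree_X_pow] at h1
  exact h1

/-- Kuca's conjecture fails. For the progression `x, x + y, x + 2y, x + 3y, x + 4y, x + y³ - 2y², x + y³ + 2y,
x + y³ + 2y²` and the term `x + 4y`: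
* the minimal `s` with `deg R_4 ≤ s` for all algebraic relations is `3`;
* no `s ≤ 3` has property (⋆), even if `p₀` may depend on `ε`; in fact there is `c > 0` such that for every `δ > 0`
  and every sufficiently large prime `p` there are 1-bounded functions with `‖g_4‖_{U^4} < δ` (hence also
  `‖g_4‖_{U^k} < δ` for `1 ≤ k ≤ 4`) and `|Λ_p(g_0, …, g_7)| ≥ c`. -/
theorem result :
    (¬ ∀ m : ℕ, 1 ≤ m → ∀ (P : Fin m → ℤ[X]) (i : Fin (m + 1)), trueC P i = algC P i) ∧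
    algC P7 4 = 3 ∧ 4 ≤ trueC P7 4 ∧
    IsLeast {s : ℕ | AlgBound P7 4 s} 3 ∧
    (∀ s : ℕ, Star P7 4 s → 4 ≤ s) ∧ (∀ s : ℕ, WeakStar P7 4 s → 4 ≤ s) ∧
    ∃ c : ℝ, 0 < c ∧ ∀ δ : ℝ, 0 < δ → ∃ p₀ : ℕ, ∀ (p : ℕ) [Fact p.Prime], p₀ < p →
      ∃ g : Fin 8 → ZMod p → ℂ, (∀ j x, ‖g j x‖ ≤ 1) ∧
        (∀ k : ℕ, 1 ≤ k → k ≤ 4 → gowersNorm p k (g 4) < δ) ∧ c ≤ ‖Lam p P7 g‖ := by
  have hP : P7 = pf := rfl
  have main : ∃ c : ℝ, 0 < c ∧ ∀ δ : ℝ, 0 < δ → ∃ p₀ : ℕ, ∀ (p : ℕ) [Fact p.Prime], p₀ < p →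
      ∃ g : Fin 8 → ZMod p → ℂ, (∀ j x, ‖g j x‖ ≤ 1) ∧
        (∀ k : ℕ, 1 ≤ k → k ≤ 4 → gowersNorm p k (g 4) < δ) ∧ c ≤ ‖Lam p P7 g‖ := by
    refine ⟨cc / 2, by have := cc_pos; positivity, fun δ hδ => ?_⟩
    obtain ⟨P0, h0⟩ := fp_main δ hδ
    refine ⟨P0, fun p _ hp => ?_⟩
    obtain ⟨a, b, h1, h2⟩ := h0 p hp
    refine ⟨fun j => gj j a b, fun j x => norm_gj_le j a b x, fun k hk1 hk4 => ?_, ?_⟩
    · obtain ⟨s, rfl⟩ : ∃ s, k = s + 1 := ⟨k - 1, by omega⟩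
      exact lt_of_le_of_lt (gowersNorm_le_four _ s (by omega)) h2
    · rw [hP]; exact h1
  have hweak : ∀ s : ℕ, WeakStar P7 4 s → 4 ≤ s := by
    intro s hs
    by_contra hc
    push Not at hc
    obtain ⟨c, hc0, hmain⟩ := main
    obtain ⟨δ, hδ, p₀, hp₀⟩ := hs c hc0
    obtain ⟨p₁, hp₁⟩ := hmain δ hδ
    obtain ⟨p, hp, hprime⟩ := Nat.exists_infinite_primes (max p₀ p₁ + 1)
    haveI : Fact p.Prime := ⟨hprime⟩
    have h0 : p₀ < p := lt_of_le_of_lt (le_max_left _ _) (Nat.lt_of_succ_le hp)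
    have h1 : p₁ < p := lt_of_le_of_lt (le_max_right _ _) (Nat.lt_of_succ_le hp)
    obtain ⟨g, hg, hU, hL⟩ := hp₁ p h1
    have h2 := hp₀ p h0 g hg (hU (s + 1) (by omega) (by omega))
    exact absurd hL (not_le.mpr h2)
  have hstrong : ∀ s : ℕ, Star P7 4 s → 4 ≤ s := by
    intro s hs
    apply hweak
    intro ε hε
    obtain ⟨p₀, h⟩ := hs
    obtain ⟨δ, hδ, h'⟩ := h ε hε
    exact ⟨δ, hδ, p₀, h'⟩
  have hleast : IsLeast {s : ℕ | AlgBound P7 4 s} 3 := ⟨algBound_three 3, fun s hs => three_le hs⟩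
  have htrue : 4 ≤ trueC P7 4 := by
    rw [trueC]
    refine le_iInf₂ fun s hs => ?_
    exact_mod_cast hstrong s hs
  have halg : algC P7 4 = 3 := by
    rw [algC]
    refine le_antisymm ?_ ?_
    · refine (iInf₂_le 3 hleast.1).trans ?_
      norm_num
    · refine le_iInf₂ fun s hs => ?_
      exact_mod_cast hleast.2 hs
  refine ⟨fun h => ?_, halg, htrue, hleast, hstrong, hweak, main⟩
  have h1 := h 7 (by norm_num) P7 4
  rw [halg] at h1
  rw [h1] at htrue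
  norm_num at htrue

end Pool.Agent.Results.MP_31941f_co.TrueComplexityCounterexample
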